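import Pool.Agent.helper9.RA.SpecE
import Pool.Agent.helper63.RS.SpecT
import Pool.Agent.helper33.RA.FST

/-!
# Project rw: (MP_70a088_an, rational class, block A_R, second window form): FST2: the loss before `T₀`
-/

set_option autoImplicit false

open Complex Metric Set Filter Topology MeasureTheory
open HY (UD T S hd UN RM)
open RT
open PL (cm BS DQ)
open RB (VL LO FLS FL CLS FR TL TLL INN DRT)
open RB (NCR WINB)

noncomputable section

namespace RA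

/-- row FST2. -/
theorem FST2 (hFSE2 : FSE2_stmt) (hACH : ACH_stmt) (hEUP : EUP_stmt) (hTKO : RT.TKO_stmt) (hQNU : RT.QNU_stmt) (hTDF : RT.TDF_stmt)
    (hTIN : RT.TIN_stmt) (hVPB : RS.VPB_stmt) (hVCF : RS.VCF_stmt) : FST2_stmt := by
  intro Y s hY c₀ hc₀
  have hs0 : 0 < s := hY.ok.s0
  have hs1 : s ≤ 1 := by linarith [hY.ok.s1]
  obtain ⟨K, hK1, hK⟩ := hEUP s hs0 hs1
  obtain ⟨K', hK'1, hT1, hT2⟩ := hTKO s hs0 hs1
  obtain ⟨C₃, hC₃1, hT3⟩ := hT2 (3 / 4) (by norm_num) (by norm_num)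
  obtain ⟨η₀, δ₀, hη₀, hη₀2, hδ₀, hδ₀4, hF⟩ := hFSE2 Y s hY c₀ hc₀
  have hK0 : 0 < K := by linarith
  have hK'0 : 0 < K' := by linarith
  have hC₃0 : 0 < C₃ := by linarith
  obtain ⟨o1, o2, o3, o4, o5, o6⟩ := hVPB Y s 0 0 hY.ok Y.U hY.lv
  refine ⟨η₀ / 4, max (max 1 (2 / η₀)) (K * C₃ ^ 3 / δ₀), by positivity, (le_max_left _ _).trans (le_max_left _ _), ?_⟩
  intro a ha
  obtain ⟨C₀, hC₀, hF⟩ := hF a ha
  have hC₀0 : 0 < C₀ := by linarith
  refine ⟨K' * C₀, by nlinarith, ?_⟩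
  intro x hxJ n t p hpJ hp hpd L v hL hvt hNC hax hsz
  have hL1 : 1 ≤ L := ((le_max_left _ _).trans (le_max_left _ _)).trans hL
  have hL2 : 2 / η₀ ≤ L := ((le_max_right _ _).trans (le_max_left _ _)).trans hL
  have hL3 : K * C₃ ^ 3 / δ₀ ≤ L := (le_max_right _ _).trans hL
  have hL0 : 0 < L := by linarith
  obtain ⟨c1, c2, c3⟩ := FST_cmp hTIN hVPB hVCF Y s hY x hxJ n t p hp hpd v hvt
  obtain ⟨d1, d2, d3⟩ := FST_cmp hTIN hVPB hVCF Y s hY x hxJ n t p hp hpd t le_rfl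
  obtain ⟨hch1, hch2, hch3, -⟩ := hACH Y s hY p hpJ n
  have hct : 0 < cv Y n p t := (hch1 t).1
  have hcs : 0 < cv Y n p v := (hch1 v).1
  have hcst : cv Y n p t ≤ cv Y n p v := hch2 v t hvt
  -- the domains
  obtain ⟨hDt, hmt, hsubt, heqt, -, -, hmapt, hdift, -⟩ := hVCF Y s 0 0 hY.ok Y.U hY.lv (n + t) p (o6 _ hpJ)
  obtain ⟨hDxt, hxt, -⟩ := hVCF Y s 0 0 hY.ok Y.U hY.lv (n + t) x (o6 _ hxJ)
  obtain ⟨hDxs, hxs, -⟩ := hVCF Y s 0 0 hY.ok Y.U hY.lv (n + v) x (o6 _ hxJ)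
  -- `p` is near `x` at the level `n + v`
  have hps : pd (VL Y (n + v) x) x p ≤ δ₀ := by
    have e1 := (hT3 _ hDxt x hxt).1 p hp hpd
    have e2 := (hT3 _ hDxs x hxs).1 p c1 c2
    have e3 := (hK _ hDxs x hxs).1 p
    have f1 : cv Y n p t = cr (VL Y (n + t) x) p := congrArg (fun W : Set ℂ => cr W p) d3
    have f2 : cv Y n p v = cr (VL Y (n + v) x) p := congrArg (fun W : Set ℂ => cr W p) c3
    have e4 : cr (VL Y (n + t) x) x ≤ C₃ * cv Y n p t := by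
      rw [f1]
      exact e1.2.2
    have e5 : cv Y n p v ≤ C₃ * cr (VL Y (n + v) x) x := by
      rw [f2]
      exact e2.2.1
    have e6 : ‖p - x‖ ≤ C₃ * (C₃ * cv Y n p t) := e1.1.trans (mul_le_mul_of_nonneg_left e4 hC₃0.le)
    have e7 : 0 ≤ pd (VL Y (n + v) x) x p := (FST_pd_le hTDF s _ hDxs x hxs p).1
    have e8 : pd (VL Y (n + v) x) x p * cv Y n p v ≤ C₃ * (K * (C₃ * (C₃ * cv Y n p t))) := by
      calc pd (VL Y (n + v) x) x p * cv Y n p v ≤ pd (VL Y (n + v) x) x p * (C₃ * cr (VL Y (n + v) x) x) :=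
            mul_le_mul_of_nonneg_left e5 e7
        _ = C₃ * (pd (VL Y (n + v) x) x p * cr (VL Y (n + v) x) x) := by ring
        _ ≤ C₃ * (K * ‖p - x‖) := mul_le_mul_of_nonneg_left e3 hC₃0.le
        _ ≤ C₃ * (K * (C₃ * (C₃ * cv Y n p t))) :=
            mul_le_mul_of_nonneg_left (mul_le_mul_of_nonneg_left e6 hK0.le) hC₃0.le
    have e9 : C₃ * (K * (C₃ * (C₃ * cv Y n p t))) ≤ δ₀ * cv Y n p v := by
      have h0 : K * C₃ ^ 3 ≤ L * δ₀ := by
        rwa [div_le_iff₀ hδ₀] at hL3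
      have h1 : C₃ * (K * (C₃ * (C₃ * cv Y n p t))) = K * C₃ ^ 3 * cv Y n p t := by ring
      calc C₃ * (K * (C₃ * (C₃ * cv Y n p t))) = K * C₃ ^ 3 * cv Y n p t := h1
        _ ≤ L * δ₀ * cv Y n p t := mul_le_mul_of_nonneg_right h0 hct.le
        _ = δ₀ * (L * cv Y n p t) := by ring
        _ ≤ δ₀ * cv Y n p v := mul_le_mul_of_nonneg_left hsz hδ₀.le
    exact le_of_mul_le_mul_right (e8.trans e9) hcs
  obtain ⟨hball0, hest⟩ := hF x hxJ n v hNC hax p hpJ c1 hps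
  intro z hz hzp
  set W := VL Y (n + t) p with hWdef
  set W' := VL Y (n + t - v) (it Y v p) with hW'def
  obtain ⟨-, -, ξ, hξW, hξ0, hball, hdcr⟩ := hQNU s W hDt z hz
  set d := ‖z - ξ‖ with hddef
  have hd0 : 0 < d := hξ0
  have hξz : ‖ξ - z‖ = d := by
    rw [hddef, norm_sub_rev]
  obtain ⟨-, -, e, heW, -, -, hep⟩ := hQNU s W hDt p hmt
  have hep' : ‖p - e‖ ≤ cv Y n p t := hep
  have hdle : d ≤ ‖z - p‖ + cv Y n p t := by
    have h1 : d ≤ ‖z - e‖ := by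
      by_contra h
      push Not at h
      apply heW
      apply hball
      rw [mem_ball, dist_eq_norm, norm_sub_rev]
      exact h
    have h2 : ‖z - e‖ ≤ ‖z - p‖ + ‖p - e‖ := by
      calc ‖z - e‖ = ‖(z - p) + (p - e)‖ := by ring_nf
        _ ≤ _ := norm_add_le _ _
    linarith
  have hzs : ‖z - p‖ ≤ η₀ / 4 * cv Y n p v := by
    calc ‖z - p‖ ≤ η₀ / 4 * L * cv Y n p t := hzp
      _ = η₀ / 4 * (L * cv Y n p t) := by ring
      _ ≤ η₀ / 4 * cv Y n p v := mul_le_mul_of_nonneg_left hsz (by positivity)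
  have hts : cv Y n p t ≤ η₀ / 2 * cv Y n p v := by
    have h1 : 1 ≤ η₀ / 2 * L := by
      have h2 : 2 ≤ L * η₀ := by
        rwa [div_le_iff₀ hη₀] at hL2
      linarith
    calc cv Y n p t = 1 * cv Y n p t := (one_mul _).symm
      _ ≤ (η₀ / 2 * L) * cv Y n p t := mul_le_mul_of_nonneg_right h1 hct.le
      _ = η₀ / 2 * (L * cv Y n p t) := by ring
      _ ≤ η₀ / 2 * cv Y n p v := mul_le_mul_of_nonneg_left hsz (by positivity)
  have hz1 : ‖z - p‖ ≤ η₀ * cv Y n p v := by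
    have : 0 < η₀ * cv Y n p v := mul_pos hη₀ hcs
    linarith
  have hξ1 : ‖ξ - p‖ ≤ η₀ * cv Y n p v := by
    have h1 : ‖ξ - p‖ ≤ ‖ξ - z‖ + ‖z - p‖ := by
      calc ‖ξ - p‖ = ‖(ξ - z) + (z - p)‖ := by ring_nf
        _ ≤ _ := norm_add_le _ _
    rw [hξz] at h1
    linarith
  have hE := hest z ξ hz1 hξ1
  rw [hξz] at hE
  -- the image of `ξ` is not in the tube
  have hspK : it Y v p ∈ PB Y Y.U (n + t - v) := by
    have h1 := hmapt v (by omega) hmt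
    exact connectedComponentIn_subset _ _ h1
  obtain ⟨hDW', hspW', hsubW', -⟩ := hVCF Y s 0 0 hY.ok Y.U hY.lv (n + t - v) (it Y v p) hspK
  have hmaps : MapsTo (it Y v) W W' := hmapt v (by omega)
  have hξ' : it Y v ξ ∉ W' := by
    intro hin
    have hξv : ξ ∈ PB Y Y.U (n + v) := connectedComponentIn_subset _ _ (hball0 ξ hξ1)
    have hHon : Hon Y v ξ := ((o4 n v ξ).1 hξv).1
    have h1 : ξ ∈ PB Y Y.U (n + t) := by
      have h2 := (o4 (n + t - v) v ξ).2 ⟨hHon, hsubW' hin⟩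
      have e : n + t - v + v = n + t := by omega
      rwa [e] at h2
    obtain ⟨hDξ, hξξ, -, heqξ, -⟩ := hVCF Y s 0 0 hY.ok Y.U hY.lv (n + t) ξ h1
    have hξo : IsOpen (VL Y (n + t) ξ) := hDξ.op
    have hcl : ξ ∈ closure W := by
      have h2 : ξ ∈ closure (ball z d) := by
        rw [closure_ball z hd0.ne']
        rw [mem_closedBall, dist_eq_norm, hξz]
      exact closure_mono hball h2
    obtain ⟨b, hb1, hb2⟩ := mem_closure_iff.1 hcl _ hξo hξξ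
    have h3 : VL Y (n + t) b = VL Y (n + t) ξ := heqξ b hb1
    have h4 : VL Y (n + t) b = W := heqt b hb2
    apply hξW
    rw [← h4, h3]
    exact hξξ
  have hzW' : it Y v z ∈ W' := hmaps hz
  have hcr' : 0 < cr W' (it Y v z) := (hTDF s W' hDW' _ hzW').2.1
  have hcr : 0 < cr W z := (hTDF s W hDt _ hz).2.1
  have hX : cr W' (it Y v z) ≤ K' * ‖it Y v ξ - it Y v z‖ := by
    by_contra h
    push Not at h
    apply hξ'
    apply (hT1 W' hDW' _ hzW').1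
    rw [mem_ball, dist_eq_norm, lt_div_iff₀ hK'0]
    linarith
  have hmain : cr W' (it Y v z) ≤ K' * C₀ * (‖deriv (it Y v) z‖ * cr W z) := by
    calc cr W' (it Y v z) ≤ K' * ‖it Y v ξ - it Y v z‖ := hX
      _ ≤ K' * (C₀ * ‖deriv (it Y v) z‖ * d) := mul_le_mul_of_nonneg_left hE hK'0.le
      _ ≤ K' * (C₀ * ‖deriv (it Y v) z‖ * cr W z) :=
          mul_le_mul_of_nonneg_left (mul_le_mul_of_nonneg_left hdcr (by positivity)) hK'0.le
      _ = _ := by ring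
  unfold hdf
  rw [← mul_div_assoc, le_div_iff₀ hcr', one_mul]
  exact hmain

end RA
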